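import Pool.Agent.K3h3.Fam2.Const

/-!
An element fixed by `P` whose conjugates are linearly independent over the field of constants.
-/

set_option autoImplicit false
set_option linter.unusedSectionVars false

namespace Pool.Agent.K3h3.Fam2

open Polynomial Pool.Agent.K3h17 Pool.Agent.K3h53.Fam Module

section

variable {K Ω : Type} [Field K] [CharZero K] [Field Ω] [Algebra (RatFunc K) Ω] [Algebra K Ω]
  [IsScalarTower K (RatFunc K) Ω] [FiniteDimensional (RatFunc K) Ω] [IsGalois (RatFunc K) Ω]

/-- Dedekind independence for the conjugates on the fixed field of `P`. -/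
theorem dedekind (P : Subgroup (Ω ≃ₐ[RatFunc K] Ω)) [Fintype ((Ω ≃ₐ[RatFunc K] Ω) ⧸ P)]
    (a : (Ω ≃ₐ[RatFunc K] Ω) ⧸ P → Ω)
    (h : ∀ z ∈ IntermediateField.fixedField P, ∑ q, a q * q.out z = 0) : ∀ q, a q = 0 := by
  let E := IntermediateField.fixedField P
  let φ : (Ω ≃ₐ[RatFunc K] Ω) ⧸ P → (E →* Ω) := fun q =>
    ((q.out : Ω ≃ₐ[RatFunc K] Ω) : Ω →* Ω).comp (E.val : E →* Ω)
  have hφ : ∀ q (z : E), φ q z = q.out (z : Ω) := fun q z => rfl
  have hinj : Function.Injective φ := by
    intro q q' hqq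
    have h1 : q.out⁻¹ * q'.out ∈ IntermediateField.fixingSubgroup E := by
      rw [IntermediateField.mem_fixingSubgroup_iff]
      intro z hz
      have h2 := DFunLike.congr_fun hqq (⟨z, hz⟩ : E)
      rw [hφ, hφ] at h2
      change q.out.symm (q'.out z) = z
      rw [← h2]
      exact q.out.symm_apply_apply z
    rw [IntermediateField.fixingSubgroup_fixedField] at h1
    rw [← QuotientGroup.out_eq' q, ← QuotientGroup.out_eq' q']
    exact QuotientGroup.eq.2 h1
  have hli := (linearIndependent_monoidHom E Ω).comp φ hinj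
  rw [Fintype.linearIndependent_iff] at hli
  apply hli
  ext1 z
  simp only [Finset.sum_apply, Pi.smul_apply, Function.comp_apply, smul_eq_mul, Pi.zero_apply]
  exact h z z.2

theorem exists_indep (δ : Derivation K Ω Ω) (hδ : δ (xx K Ω) = 1)
    (P : Subgroup (Ω ≃ₐ[RatFunc K] Ω)) :
    ∃ y : Ω, (∀ γ ∈ P, γ y = y) ∧
      LinearIndependent (Cst δ) (fun q : (Ω ≃ₐ[RatFunc K] Ω) ⧸ P => q.out y) := by
  classical
  have : Fintype ((Ω ≃ₐ[RatFunc K] Ω) ⧸ P) := Fintype.ofFinite _
  have := finite_const δ hδ
  let E := IntermediateField.fixedField P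
  let b := Module.finBasis (RatFunc K) E
  let κ := Module.finBasis K (Cst δ)
  let w := Module.finBasis (RatFunc K) Ω
  set m := Module.finrank (RatFunc K) E with hm
  set s := Module.finrank K (Cst δ) with hs
  set D := Module.finrank (RatFunc K) Ω with hD
  let c : ((Ω ≃ₐ[RatFunc K] Ω) ⧸ P) × Fin s × Fin m × Fin D → RatFunc K := fun i =>
    w.repr (((κ i.2.1 : Cst δ) : Ω) * i.1.out ((b i.2.2.1 : E) : Ω)) i.2.2.2
  obtain ⟨d, hd⟩ := IsLocalization.exist_integer_multiples_of_finite (nonZeroDivisors K[X]) c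
  choose u hu using hd
  have hd0 : algebraMap K[X] (RatFunc K) d ≠ 0 := by
    intro h0
    exact nonZeroDivisors.coe_ne_zero d
      ((map_eq_zero_iff _ (RatFunc.algebraMap_injective K)).1 h0)
  let N := (Finset.univ.sup fun i => (u i).natDegree) + 1
  have hN : ∀ i, (u i).natDegree < N := fun i =>
    Nat.lt_succ_of_le (Finset.le_sup (f := fun i => (u i).natDegree) (Finset.mem_univ i))
  let y : Ω := ∑ j : Fin m, algebraMap (RatFunc K) Ω (algebraMap K[X] (RatFunc K) (X ^ ((j : ℕ) * N))) *
    ((b j : E) : Ω)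
  have hγy : ∀ γ : Ω ≃ₐ[RatFunc K] Ω, γ y = ∑ j : Fin m,
      algebraMap (RatFunc K) Ω (algebraMap K[X] (RatFunc K) (X ^ ((j : ℕ) * N))) *
        γ ((b j : E) : Ω) := by
    intro γ
    change γ (∑ j : Fin m, _) = _
    rw [map_sum]
    refine Finset.sum_congr rfl fun j _ => ?_
    rw [map_mul, AlgEquiv.commutes]
  refine ⟨y, ?_, ?_⟩
  · intro γ hγ
    rw [hγy]
    refine Finset.sum_congr rfl fun j _ => ?_
    have h1 := (b j).2
    rw [IntermediateField.mem_fixedField_iff] at h1
    rw [h1 γ hγ]
  rw [Fintype.linearIndependent_iff]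
  intro a ha
  -- coordinates of the coefficients
  have hak : ∀ q, ((a q : Cst δ) : Ω) = ∑ k, algebraMap K Ω (κ.repr (a q) k) * ((κ k : Cst δ) : Ω) := by
    intro q
    have h1 := κ.sum_repr (a q)
    have h2 : (Cst δ).val (∑ k, κ.repr (a q) k • κ k) = ((a q : Cst δ) : Ω) := by
      rw [h1]
      rfl
    rw [← h2, map_sum]
    refine Finset.sum_congr rfl fun k _ => ?_
    rw [map_smul, Algebra.smul_def]
    rfl
  -- the polynomials
  have hpoly : ∀ (l : Fin D) (j : Fin m),
      ∑ q, ∑ k, C (κ.repr (a q) k) * u (q, k, j, l) = 0 := by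
    intro l
    apply poly_sum (N := N) (fun j => ∑ q, ∑ k, C (κ.repr (a q) k) * u (q, k, j, l))
    · intro j
      have h1 : (∑ q, ∑ k, C (κ.repr (a q) k) * u (q, k, j, l)).natDegree ≤ N - 1 := by
        refine natDegree_sum_le_of_forall_le _ _ fun q _ => ?_
        refine natDegree_sum_le_of_forall_le _ _ fun k _ => ?_
        refine (natDegree_C_mul_le _ _).trans ?_
        have := hN (q, k, j, l)
        omega
      have h2 : 0 < N := Nat.succ_pos _
      omega
    · apply RatFunc.algebraMap_injective K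
      rw [map_zero, map_sum]
      have h1 : w.repr (∑ q, a q • q.out y) l = 0 := by
        rw [ha, map_zero]
        rfl
      have h2 : ∑ q, a q • q.out y = ∑ j : Fin m, ∑ q, ∑ k,
          (algebraMap K[X] (RatFunc K) (X ^ ((j : ℕ) * N)) *
            algebraMap K (RatFunc K) (κ.repr (a q) k)) •
            (((κ k : Cst δ) : Ω) * q.out ((b j : E) : Ω)) := by
        rw [Finset.sum_comm]
        refine Finset.sum_congr rfl fun q _ => ?_
        rw [Algebra.smul_def, hγy]
        change ((a q : Cst δ) : Ω) * _ = _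
        rw [hak q, Finset.mul_sum]
        refine Finset.sum_congr rfl fun j _ => ?_
        rw [Finset.sum_mul]
        refine Finset.sum_congr rfl fun k _ => ?_
        rw [Algebra.smul_def, map_mul, ← IsScalarTower.algebraMap_apply K (RatFunc K) Ω]
        ring
      rw [h2] at h1
      simp only [map_sum, map_smul, Finsupp.coe_finsetSum, Finset.sum_apply, Finsupp.coe_smul,
        Pi.smul_apply, smul_eq_mul] at h1
      have h3 := congrArg (fun z => algebraMap K[X] (RatFunc K) d * z) h1
      simp only [mul_zero] at h3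
      rw [← h3, Finset.mul_sum]
      refine Finset.sum_congr rfl fun j _ => ?_
      rw [map_mul, map_sum, Finset.mul_sum, Finset.mul_sum]
      refine Finset.sum_congr rfl fun q _ => ?_
      rw [map_sum, Finset.mul_sum, Finset.mul_sum]
      refine Finset.sum_congr rfl fun k _ => ?_
      have h4 := hu (q, k, j, l)
      rw [map_mul, h4, Algebra.smul_def]
      have h5 : algebraMap K[X] (RatFunc K) (C (κ.repr (a q) k)) =
          algebraMap K (RatFunc K) (κ.repr (a q) k) := by
        rw [IsScalarTower.algebraMap_apply K K[X] (RatFunc K)]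
        rfl
      rw [h5]
      change _ * (_ * (_ * c (q, k, j, l))) = _ * (_ * _ * c (q, k, j, l))
      ring
  -- hence the values on the basis vanish
  have hval : ∀ j : Fin m, ∑ q, ((a q : Cst δ) : Ω) * q.out ((b j : E) : Ω) = 0 := by
    intro j
    apply w.repr.injective
    ext l
    rw [map_zero, Finsupp.zero_apply]
    have h2 : ∑ q, ((a q : Cst δ) : Ω) * q.out ((b j : E) : Ω) = ∑ q, ∑ k,
        (algebraMap K (RatFunc K) (κ.repr (a q) k)) •
          (((κ k : Cst δ) : Ω) * q.out ((b j : E) : Ω)) := by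
      refine Finset.sum_congr rfl fun q _ => ?_
      rw [hak q, Finset.sum_mul]
      refine Finset.sum_congr rfl fun k _ => ?_
      rw [Algebra.smul_def, ← IsScalarTower.algebraMap_apply K (RatFunc K) Ω]
      ring
    rw [h2]
    simp only [map_sum, map_smul, Finsupp.coe_finsetSum, Finset.sum_apply, Finsupp.coe_smul,
      Pi.smul_apply, smul_eq_mul]
    have h3 := congrArg (algebraMap K[X] (RatFunc K)) (hpoly l j)
    rw [map_zero, map_sum] at h3
    apply (mul_eq_zero_iff_left hd0).1
    rw [Finset.mul_sum, ← h3]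
    refine Finset.sum_congr rfl fun q _ => ?_
    rw [Finset.mul_sum, map_sum]
    refine Finset.sum_congr rfl fun k _ => ?_
    have h4 := hu (q, k, j, l)
    rw [map_mul (algebraMap K[X] (RatFunc K)), h4, Algebra.smul_def]
    have h5 : algebraMap K[X] (RatFunc K) (C (κ.repr (a q) k)) =
        algebraMap K (RatFunc K) (κ.repr (a q) k) := by
      rw [IsScalarTower.algebraMap_apply K K[X] (RatFunc K)]
      rfl
    rw [h5]
    change _ * (_ * c (q, k, j, l)) = _ * (_ * c (q, k, j, l))
    ring
  have hall : ∀ z ∈ IntermediateField.fixedField P, ∑ q, ((a q : Cst δ) : Ω) * q.out z = 0 := by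
    intro z hz
    have h1 := b.sum_repr (⟨z, hz⟩ : E)
    have h2 : z = ∑ j, algebraMap (RatFunc K) Ω (b.repr ⟨z, hz⟩ j) * ((b j : E) : Ω) := by
      have h3 : E.val (∑ j, b.repr ⟨z, hz⟩ j • b j) = z := by
        rw [h1]
        rfl
      refine h3.symm.trans ?_
      rw [map_sum]
      refine Finset.sum_congr rfl fun j _ => ?_
      rw [map_smul, Algebra.smul_def]
      rfl
    have h4 : ∀ q : (Ω ≃ₐ[RatFunc K] Ω) ⧸ P, q.out z =
        ∑ j, algebraMap (RatFunc K) Ω (b.repr ⟨z, hz⟩ j) * q.out ((b j : E) : Ω) := by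
      intro q
      conv_lhs => rw [h2]
      rw [map_sum]
      refine Finset.sum_congr rfl fun j _ => ?_
      rw [map_mul, AlgEquiv.commutes]
    simp_rw [h4, Finset.mul_sum]
    rw [Finset.sum_comm]
    apply Finset.sum_eq_zero
    intro j _
    have h5 := congrArg (fun t => algebraMap (RatFunc K) Ω (b.repr ⟨z, hz⟩ j) * t) (hval j)
    simp only [mul_zero, Finset.mul_sum] at h5
    rw [← h5]
    refine Finset.sum_congr rfl fun q _ => ?_
    ring
  intro q
  have h1 := dedekind P (fun q => ((a q : Cst δ) : Ω)) hall q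
  exact Subtype.ext h1

end

end Pool.Agent.K3h3.Fam2
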