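import Pool.Agent.K3h17.Stm2
import Pool.Agent.K3h53.Fam.Main
import Pool.Agent.K3h3.Fam2.Indep

/-!
Brick FAM2 of the project of helper17: a cyclic vector and adjoint differential operators, without
any hypothesis on the constants. The second half is the proof of `Pool.Agent.K3h53.Fam.t_fam`
(helper53).
-/

set_option autoImplicit false
set_option linter.unusedSectionVars false

namespace Pool.Agent.K3h3.Fam2

open Polynomial Pool.Agent.K3h17 Pool.Agent.K3h53.Fam

/-- A cyclic vector: the constants of `δ` may be a proper extension of `K`. -/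
theorem cyc2 {K Ω : Type} [Field K] [CharZero K] [Field Ω] [Algebra (RatFunc K) Ω] [Algebra K Ω]
    [IsScalarTower K (RatFunc K) Ω] [FiniteDimensional (RatFunc K) Ω] [IsGalois (RatFunc K) Ω]
    (δ : Derivation K Ω Ω) (hδ : δ (xx K Ω) = 1)
    (hcomm : ∀ (γ : Ω ≃ₐ[RatFunc K] Ω) (z : Ω), δ (γ z) = γ (δ z))
    (P : Subgroup (Ω ≃ₐ[RatFunc K] Ω)) : ∃ y : Ω, (∀ γ, γ y = y ↔ γ ∈ P) ∧
      ∀ z : Ω, (∀ γ ∈ P, γ z = z) →
        ∃ c : ℕ → RatFunc K, z = ∑ j ∈ Finset.range P.index,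
          algebraMap (RatFunc K) Ω (c j) * (δ^[j] y) := by
  classical
  have : Fintype ((Ω ≃ₐ[RatFunc K] Ω) ⧸ P) := Fintype.ofFinite _
  obtain ⟨y, hyP, hlin⟩ := exists_indep δ hδ P
  have hout : ∀ γ : Ω ≃ₐ[RatFunc K] Ω,
      (QuotientGroup.mk γ : (Ω ≃ₐ[RatFunc K] Ω) ⧸ P).out y = γ y := by
    intro γ
    obtain ⟨p, hp⟩ := QuotientGroup.mk_out_eq_mul P γ
    rw [hp, AlgEquiv.mul_apply, hyP p p.2]
  have hfix : ∀ γ : Ω ≃ₐ[RatFunc K] Ω, γ y = y ↔ γ ∈ P := by
    intro γ
    refine ⟨fun h => ?_, hyP γ⟩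
    have h1 : (QuotientGroup.mk γ : (Ω ≃ₐ[RatFunc K] Ω) ⧸ P) = QuotientGroup.mk 1 := by
      apply hlin.injective
      simp only
      rw [hout, hout, h, AlgEquiv.one_apply]
    have h2 := QuotientGroup.eq.1 h1
    rw [mul_one] at h2
    exact P.inv_mem_iff.1 h2
  have hcm : ∀ (γ : Ω ≃ₐ[RatFunc K] Ω) (j : ℕ) (z : Ω), δ^[j] (γ z) = γ (δ^[j] z) := by
    intro γ j z
    induction j with
    | zero => rfl
    | succ j ih =>
      rw [Function.iterate_succ_apply', Function.iterate_succ_apply', ih, hcomm]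
  have hind : ∀ r : ℕ, r ≤ P.index →
      LinearIndependent (RatFunc K) (fun j : Fin r => δ^[(j : ℕ)] y) := by
    intro r
    induction r with
    | zero =>
      intro _
      exact linearIndependent_empty_type
    | succ r ih =>
      intro hr
      rw [linearIndependent_finSucc']
      refine ⟨ih (by omega), ?_⟩
      intro hmem
      rw [Submodule.mem_span_range_iff_exists_fun] at hmem
      obtain ⟨c, hc⟩ := hmem
      simp only [Fin.init, Fin.val_castSucc, Fin.val_last] at hc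
      refine Pool.Agent.K3h53.Cyc.core (F := Cst δ) (δ.restrictScalars ℤ)
        (fun z hz => ⟨⟨z, hz⟩, rfl⟩) (fun q : (Ω ≃ₐ[RatFunc K] Ω) ⧸ P => q.out y) hlin r ?_
        (fun j => algebraMap (RatFunc K) Ω (c j)) ?_
      · rw [← Nat.card_eq_fintype_card, ← Subgroup.index_eq_card]
        omega
      · intro q
        change δ^[r] (q.out y) = ∑ j : Fin r, algebraMap (RatFunc K) Ω (c j) * δ^[(j : ℕ)] (q.out y)
        simp only [hcm]
        rw [← hc, map_sum]
        refine Finset.sum_congr rfl fun j _ => ?_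
        rw [map_smul, Algebra.smul_def]
  refine ⟨y, hfix, ?_⟩
  intro z hz
  -- the fixed field
  let E := IntermediateField.fixedField P
  have hEmem : ∀ u : Ω, (∀ γ ∈ P, γ u = u) → u ∈ E := by
    intro u hu
    rw [IntermediateField.mem_fixedField_iff]
    exact hu
  have hyj : ∀ j : ℕ, δ^[j] y ∈ E := by
    intro j
    apply hEmem
    intro γ hγ
    rw [← hcm, (hfix γ).2 hγ]
  let v : Fin P.index → E := fun j => ⟨δ^[(j : ℕ)] y, hyj j⟩
  have hv : LinearIndependent (RatFunc K) v := by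
    apply LinearIndependent.of_comp (E.val.toLinearMap)
    exact hind P.index le_rfl
  have hrank : Fintype.card (Fin P.index) = Module.finrank (RatFunc K) E := by
    rw [Fintype.card_fin]
    have h1 : Module.finrank (RatFunc K) E * Module.finrank E Ω = Module.finrank (RatFunc K) Ω :=
      Module.finrank_mul_finrank (RatFunc K) E Ω
    have h2 : Module.finrank E Ω = Nat.card P := IntermediateField.finrank_fixedField_eq_card P
    have h3 : Nat.card (Ω ≃ₐ[RatFunc K] Ω) = Module.finrank (RatFunc K) Ω :=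
      IsGalois.card_aut_eq_finrank (RatFunc K) Ω
    have h4 : P.index * Nat.card P = Nat.card (Ω ≃ₐ[RatFunc K] Ω) := P.index_mul_card
    have h5 : 0 < Nat.card P := Nat.card_pos
    rw [← h3, ← h4, h2] at h1
    exact (Nat.eq_of_mul_eq_mul_right h5 h1).symm
  have hspan := hv.span_eq_top_of_card_eq_finrank' hrank
  have hzE : (⟨z, hEmem z hz⟩ : E) ∈ Submodule.span (RatFunc K) (Set.range v) := by
    rw [hspan]
    exact Submodule.mem_top
  rw [Submodule.mem_span_range_iff_exists_fun] at hzE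
  obtain ⟨c, hc⟩ := hzE
  refine ⟨fun j => if h : j < P.index then c ⟨j, h⟩ else 0, ?_⟩
  have h1 := congrArg (fun u : E => (u : Ω)) hc
  simp only at h1
  rw [← h1, Finset.sum_range]
  have h2 : ((∑ i, c i • v i : E) : Ω) = ∑ i, c i • (v i : Ω) := by
    have := map_sum E.val (fun i => c i • v i) Finset.univ
    simpa using this
  rw [h2]
  refine Finset.sum_congr rfl fun j _ => ?_
  have h3 : (fun j => if h : j < P.index then c ⟨j, h⟩ else 0) (j : ℕ) = c j := by
    simp only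
    rw [dif_pos j.isLt]
  rw [h3, Algebra.smul_def]

theorem t_fam2 : St_fam2 := by
  intro K Ω _ _ _ _ _ _ _ _ δ hδ hcomm P m e he hspan Δ hΔ
  classical
  have : CharZero (RatFunc K) := charZero_of_injective_algebraMap (algebraMap K (RatFunc K)).injective
  set M := P.index with hMdef
  have hM : 0 < M := Nat.pos_of_ne_zero P.index_ne_zero_of_finite
  set A := fun u : K[X] => aeval (xx K Ω) u with hA
  -- the cyclic vector
  obtain ⟨yc, hfix, hgen⟩ := cyc2 δ hδ hcomm P
  have hcm : ∀ (γ : Ω ≃ₐ[RatFunc K] Ω) (j : ℕ) (z : Ω), δ^[j] (γ z) = γ (δ^[j] z) := by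
    intro γ j z
    induction j with
    | zero => rfl
    | succ j ih =>
      rw [Function.iterate_succ_apply', Function.iterate_succ_apply', ih, hcomm]
  have hP : ∀ (v : Ω), (∀ γ ∈ P, γ v = v) → ∀ j : ℕ, ∀ γ ∈ P, γ (δ^[j] v) = δ^[j] v := by
    intro v hv j γ hγ
    rw [← hcm, hv γ hγ]
  have hyc : ∀ γ ∈ P, γ yc = yc := fun γ hγ => (hfix γ).2 hγ
  have hgen' : ∀ z : Ω, (∀ γ ∈ P, γ z = z) → ∃ c : ℕ → RatFunc K,
      z = ∑ j ∈ Finset.range M, algebraMap (RatFunc K) Ω (c j) * (δ^[j] yc) := hgen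
  -- denominators
  have h1 : ∀ j : ℕ, ∃ (q : K[X]) (B : ℕ), q ≠ 0 ∧ Dv e Δ B (aeval (xx K Ω) q * δ^[j] yc) :=
    fun j => dv_exists hspan hΔ _ (hP yc hyc j)
  choose q B hq0 hqB using h1
  obtain ⟨c, hc⟩ := hgen' (yc ^ 2) (by
    intro γ hγ
    rw [map_pow, hyc γ hγ])
  obtain ⟨b, u, hb, hu⟩ := exists_den (K := K) (Ω := Ω) (fun j : Fin M => c (j : ℕ))
  set Q : K[X] := (∏ j ∈ Finset.range (M + 1), q j) * b with hQ
  have hQ0 : Q ≠ 0 := mul_ne_zero (Finset.prod_ne_zero_iff.2 fun j _ => hq0 j) hb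
  have hQd : ∀ j ≤ M, ∃ B', Dv e Δ B' (aeval (xx K Ω) Q * δ^[j] yc) := by
    intro j hj
    have h2 : Q = (b * ∏ i ∈ (Finset.range (M + 1)).erase j, q i) * q j := by
      rw [hQ, ← Finset.mul_prod_erase (Finset.range (M + 1)) q (Finset.mem_range.2 (show j < M + 1 by omega))]
      ring
    refine ⟨B j + (b * ∏ i ∈ (Finset.range (M + 1)).erase j, q i).natDegree, ?_⟩
    rw [h2, map_mul (aeval (xx K Ω)) (b * ∏ i ∈ (Finset.range (M + 1)).erase j, q i), mul_assoc]
    exact dv_smul (hqB j) _ le_rfl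
  have hQc : ∀ j < M, ∃ d : K[X],
      aeval (xx K Ω) Q * algebraMap (RatFunc K) Ω (c j) = aeval (xx K Ω) d := by
    intro j hj
    refine ⟨(∏ i ∈ Finset.range (M + 1), q i) * u ⟨j, hj⟩, ?_⟩
    rw [hQ, map_mul, map_mul, mul_assoc, ← hu ⟨j, hj⟩]
  clear_value Q
  -- the vector
  set N := M + 1 with hN
  set y : Ω := aeval (xx K Ω) Q ^ N * yc with hy
  have hQA : aeval (xx K Ω) Q ≠ 0 := aeval_xx_ne_zero hQ0
  have hyfix : ∀ γ : Ω ≃ₐ[RatFunc K] Ω, γ y = y ↔ γ ∈ P := by
    intro γ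
    rw [← hfix γ, hy, map_mul, map_pow, gal_aeval]
    constructor
    · intro h
      exact mul_left_cancel₀ (pow_ne_zero N hQA) h
    · intro h
      rw [h]
  have hyP : ∀ γ ∈ P, γ y = y := fun γ hγ => (hyfix γ).2 hγ
  -- derivatives of y are in Dv
  have hyD : ∀ i ≤ M, ∃ B', Dv e Δ B' (δ^[i] y) := by
    intro i hi
    obtain ⟨z, ⟨r, hr⟩, hz2⟩ := der_pow hδ yc Q N i (by omega)
    have h2 : ∀ j : ℕ, ∃ B', j ≤ M → Dv e Δ B' (aeval (xx K Ω) Q * δ^[j] yc) := by
      intro j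
      by_cases hj : j ≤ M
      · obtain ⟨B', hB'⟩ := hQd j hj
        exact ⟨B', fun _ => hB'⟩
      · exact ⟨0, fun h => absurd h hj⟩
    choose B2 hB2 using h2
    let g : ℕ → ℕ := fun j => B2 j + (Q ^ (N - i - 1) * r j).natDegree
    refine ⟨(Finset.range (i + 1)).sup g, ?_⟩
    rw [hy, hz2, hr, Finset.mul_sum]
    refine dv_sum _ _ fun j hj => ?_
    have hj' := Finset.mem_range.1 hj
    have h3 : aeval (xx K Ω) Q ^ (N - i) * (aeval (xx K Ω) (r j) * δ^[j] yc) =
        aeval (xx K Ω) (Q ^ (N - i - 1) * r j) * (aeval (xx K Ω) Q * δ^[j] yc) := by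
      obtain ⟨n, hn⟩ : ∃ n, N - i = n + 1 := ⟨N - i - 1, by omega⟩
      rw [hn, Nat.add_sub_cancel, map_mul, map_pow]
      ring
    rw [h3]
    exact dv_mono (Finset.le_sup (f := g) hj) (dv_smul (hB2 j (by omega)) _ le_rfl)
  have hyD2 : ∀ i : ℕ, ∃ B', i ≤ M → Dv e Δ B' (δ^[i] y) := by
    intro i
    by_cases hi : i ≤ M
    · obtain ⟨B', hB'⟩ := hyD i hi
      exact ⟨B', fun _ => hB'⟩
    · exact ⟨0, fun h => absurd h hi⟩
  choose B3 hB3 using hyD2
  set C1 := (Finset.range (M + 1)).sup B3 with hC1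
  have hyC1 : ∀ i ≤ M, Dv e Δ C1 (δ^[i] y) := by
    intro i hi
    exact dv_mono (Finset.le_sup (f := B3) (Finset.mem_range.2 (by omega))) (hB3 i hi)
  -- y ^ 2
  have hy2 : Ls δ y M (y ^ 2) := by
    have h2 : y ^ 2 = ∑ j ∈ Finset.range M, aeval (xx K Ω) Q ^ (2 * N) *
        (algebraMap (RatFunc K) Ω (c j) * δ^[j] yc) := by
      rw [← Finset.mul_sum, ← hc, hy]
      ring
    rw [h2]
    refine ls_sum _ _ fun j hj => ?_
    rw [Finset.mem_range] at hj
    obtain ⟨d, hd⟩ := hQc j hj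
    have h3 : aeval (xx K Ω) Q ^ (2 * N) * (algebraMap (RatFunc K) Ω (c j) * δ^[j] yc) =
        aeval (xx K Ω) (d * Q ^ (M - j)) * (aeval (xx K Ω) Q ^ (N + j) * δ^[j] yc) := by
      rw [map_mul, map_pow, ← hd]
      have h4 : 2 * N = 1 + (M - j) + (N + j) := by omega
      rw [h4, pow_add, pow_add, pow_one]
      ring
    rw [h3]
    exact ls_smul (ls_mono (by omega) (inv_pow hδ yc Q N j)) _
  obtain ⟨r, hr⟩ := hy2
  -- the relation
  obtain ⟨c', hc'⟩ := hgen' (δ^[M] y) (hP y hyP M)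
  obtain ⟨b', u', hb', hu'⟩ := exists_den (K := K) (Ω := Ω) (fun j : Fin M => c' (j : ℕ))
  have hrel0 : Ls δ y M (aeval (xx K Ω) (b' * Q ^ (N + M)) * δ^[M] y) := by
    rw [hc', Finset.mul_sum]
    refine ls_sum _ _ fun j hj => ?_
    rw [Finset.mem_range] at hj
    have h3 : aeval (xx K Ω) (b' * Q ^ (N + M)) *
        (algebraMap (RatFunc K) Ω (c' j) * δ^[j] yc) =
        aeval (xx K Ω) (u' ⟨j, hj⟩ * Q ^ (M - j)) * (aeval (xx K Ω) Q ^ (N + j) * δ^[j] yc) := by
      rw [map_mul, map_mul, ← hu' ⟨j, hj⟩, map_pow, map_pow]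
      have h4 : N + M = (M - j) + (N + j) := by omega
      rw [h4, pow_add]
      ring
    rw [h3]
    exact ls_smul (ls_mono (by omega) (inv_pow hδ yc Q N j)) _
  obtain ⟨r', hr'⟩ := hrel0
  set p : ℕ → K[X] := fun j => if j = M then b' * Q ^ (N + M) else - r' j with hp
  have hpM : p M ≠ 0 := by
    rw [hp]
    simp only [if_true]
    exact mul_ne_zero hb' (pow_ne_zero _ hQ0)
  have hrel : ∑ j ∈ Finset.range (M + 1), aeval (xx K Ω) (p j) * δ^[j] y = 0 := by
    rw [Finset.sum_range_succ]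
    have h3 : ∑ j ∈ Finset.range M, aeval (xx K Ω) (p j) * δ^[j] y =
        - ∑ j ∈ Finset.range M, aeval (xx K Ω) (r' j) * δ^[j] y := by
      rw [← Finset.sum_neg_distrib]
      refine Finset.sum_congr rfl fun j hj => ?_
      rw [Finset.mem_range] at hj
      rw [hp]
      simp only [if_neg (show ¬ j = M by omega), map_neg, neg_mul]
    have h4 : p M = b' * Q ^ (N + M) := by
      rw [hp]
      simp
    rw [h3, ← hr', h4, neg_add_cancel]
  obtain ⟨s, a₀, hdeg⟩ := kap_degree M p hpM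
  -- the data
  set CH := (Finset.range M).sup (fun i => C1 + (r i).natDegree) with hCH
  set Dg := (Finset.range (M + 1)).sup (fun i => (p i).natDegree) with hDg
  refine ⟨y, ∑ i ∈ Finset.range M, (-1) ^ i * derivative^[i] (r i),
    ∑ i ∈ Finset.range M, Th δ y i (r i), CH + (C1 + Dg + M), a₀ + s, hyfix, ?_, ?_, ?_⟩
  · refine dv_mono (Nat.le_add_right _ _) (dv_sum _ _ fun i hi => ?_)
    have hi' := Finset.mem_range.1 hi
    exact dv_mono (Finset.le_sup (f := fun i => C1 + (r i).natDegree) hi)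
      (th_dv y C1 i (fun j hj => hyC1 j (by omega)) (r i))
  · rw [map_sum, hr, map_sum, Finset.sum_mul, ← Finset.sum_sub_distrib]
    exact Finset.sum_congr rfl fun i _ => th_der hδ i (r i)
  · intro k hk
    have ha : a₀ ≤ k + M - s := by omega
    obtain ⟨h5, h6⟩ := hdeg (k + M - s) ha
    refine ⟨Kap M p (X ^ (k + M - s)),
      - ∑ j ∈ Finset.range (M + 1), Th δ y j (p j * X ^ (k + M - s)), ?_, ?_, ?_⟩
    · rw [h6]
      omega
    · refine dv_neg (dv_sum _ _ fun j hj => ?_)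
      have hj' := Finset.mem_range.1 hj
      refine dv_mono ?_ (th_dv y C1 j (fun i hi => hyC1 i (by omega)) (p j * X ^ (k + M - s)))
      have h7 : (p j * X ^ (k + M - s)).natDegree ≤ (p j).natDegree + (k + M - s) := by
        refine natDegree_mul_le.trans ?_
        rw [natDegree_X_pow]
      have h8 : (p j).natDegree ≤ Dg :=
        Finset.le_sup (f := fun i => (p i).natDegree) hj
      omega
    · rw [map_neg, map_sum, Kap, map_sum, Finset.sum_mul, ← Finset.sum_neg_distrib]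
      have h9 : ∀ j ∈ Finset.range (M + 1), - δ (Th δ y j (p j * X ^ (k + M - s))) =
          aeval (xx K Ω) ((-1) ^ j * derivative^[j] (p j * X ^ (k + M - s))) * y -
          aeval (xx K Ω) (X ^ (k + M - s) : K[X]) * (aeval (xx K Ω) (p j) * δ^[j] y) := by
        intro j _
        rw [th_der hδ, map_mul (aeval (xx K Ω)) (p j) (X ^ (k + M - s))]
        ring
      rw [Finset.sum_congr rfl h9, Finset.sum_sub_distrib, ← Finset.mul_sum, hrel, mul_zero,
        sub_zero]

end Pool.Agent.K3h3.Fam2
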