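import Pool.Agent.K3h53.Cyc.Wron
import Pool.Agent.K3h53.Fam.Base

/-!
The constants of a derivation `δ` with `δ x = 1` on a finite extension of `K(x)`: they form a finite
extension of `K`.
-/

set_option autoImplicit false
set_option linter.unusedSectionVars false

namespace Pool.Agent.K3h3.Fam2

open Polynomial Pool.Agent.K3h17 Pool.Agent.K3h53.Fam

section

variable {K Ω : Type} [Field K] [Field Ω] [Algebra (RatFunc K) Ω] [Algebra K Ω]
  [IsScalarTower K (RatFunc K) Ω]

/-- The field of constants. -/
def Cst (δ : Derivation K Ω Ω) : IntermediateField K Ω where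
  carrier := {z | δ z = 0}
  mul_mem' := by
    intro a b ha hb
    simp only [Set.mem_setOf_eq] at *
    rw [Derivation.leibniz, ha, hb, smul_zero, smul_zero, add_zero]
  add_mem' := by
    intro a b ha hb
    simp only [Set.mem_setOf_eq] at *
    rw [map_add, ha, hb, add_zero]
  algebraMap_mem' := fun a => δ.map_algebraMap a
  inv_mem' := by
    intro a ha
    simp only [Set.mem_setOf_eq] at *
    change δ a⁻¹ = 0
    have ha' : δ a = 0 := ha
    rw [Derivation.leibniz_inv, ha', smul_zero]

theorem mem_cst (δ : Derivation K Ω Ω) (z : Ω) : z ∈ Cst δ ↔ δ z = 0 := Iff.rfl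

/-- Coefficients of a polynomial split into blocks. -/
theorem poly_sum {m N : ℕ} (q : Fin m → K[X]) (hq : ∀ j, (q j).natDegree < N)
    (h : ∑ j : Fin m, X ^ ((j : ℕ) * N) * q j = 0) (j : Fin m) : q j = 0 := by
  ext t
  rw [coeff_zero]
  by_cases ht : N ≤ t
  · exact coeff_eq_zero_of_natDegree_lt ((hq j).trans_le ht)
  · push Not at ht
    have h1 := congrArg (fun f => coeff f ((j : ℕ) * N + t)) h
    simp only [finsetSum_coeff, coeff_zero] at h1
    rw [Finset.sum_eq_single j] at h1
    · rw [coeff_X_pow_mul', if_pos (Nat.le_add_right _ _), Nat.add_sub_cancel_left] at h1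
      exact h1
    · intro i _ hij
      rw [coeff_X_pow_mul']
      have hij' : (i : ℕ) ≠ (j : ℕ) := fun h' => hij (Fin.ext h')
      rcases lt_or_gt_of_ne hij' with hlt | hgt
      · have h2 : ((i : ℕ) + 1) * N ≤ (j : ℕ) * N := Nat.mul_le_mul_right _ hlt
        rw [add_mul, one_mul] at h2
        rw [if_pos (by omega)]
        apply coeff_eq_zero_of_natDegree_lt
        have := hq i
        omega
      · have h2 : ((j : ℕ) + 1) * N ≤ (i : ℕ) * N := Nat.mul_le_mul_right _ hgt
        rw [add_mul, one_mul] at h2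
        rw [if_neg (by omega)]
    · intro h'
      exact absurd (Finset.mem_univ _) h'

end

section

variable {K Ω : Type} [Field K] [CharZero K] [Field Ω] [Algebra (RatFunc K) Ω] [Algebra K Ω]
  [IsScalarTower K (RatFunc K) Ω]

theorem poly_const (δ : Derivation K Ω Ω) (hδ : δ (xx K Ω) = 1) {ι : Type} [Fintype ι]
    (c : ι → Ω) (hc : ∀ i, δ (c i) = 0) (hl : LinearIndependent K c) :
    ∀ (N : ℕ) (p : ι → K[X]), (∀ j, (p j).natDegree ≤ N) →
      ∑ j, aeval (xx K Ω) (p j) * c j = 0 → p = 0 := by
  have hbase : ∀ (p : ι → K[X]), (∀ j, (p j).natDegree ≤ 0) →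
      ∑ j, aeval (xx K Ω) (p j) * c j = 0 → p = 0 := by
    intro p hp hsum
    have h1 : ∑ j, (p j).coeff 0 • c j = 0 := by
      rw [← hsum]
      refine Finset.sum_congr rfl fun j _ => ?_
      rw [Algebra.smul_def]
      congr 1
      conv_rhs => rw [eq_C_of_natDegree_le_zero (hp j), aeval_C]
    have h2 := Fintype.linearIndependent_iff.1 hl _ h1
    ext1 j
    rw [eq_C_of_natDegree_le_zero (hp j), h2 j, C_0]
    rfl
  intro N
  induction N with
  | zero => exact hbase
  | succ N ih =>
    intro p hp hsum
    have hder : (fun j => derivative (p j)) = 0 := by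
      refine ih (fun j => derivative (p j)) ?_ ?_
      · intro j
        have := natDegree_derivative_le (p j)
        have := hp j
        omega
      · have h1 := congrArg δ hsum
        rw [map_sum, map_zero] at h1
        rw [← h1]
        refine Finset.sum_congr rfl fun j _ => ?_
        rw [Derivation.leibniz, der_aeval δ hδ, hc, smul_zero, zero_add, smul_eq_mul, mul_comm]
    refine hbase p ?_ hsum
    intro j
    have h1 : derivative (p j) = 0 := congrFun hder j
    exact (natDegree_eq_zero_of_derivative_eq_zero h1).le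

theorem indep_const (δ : Derivation K Ω Ω) (hδ : δ (xx K Ω) = 1) {ι : Type} [Fintype ι]
    (c : ι → Ω) (hc : ∀ i, δ (c i) = 0) (hl : LinearIndependent K c) :
    LinearIndependent (RatFunc K) c := by
  rw [Fintype.linearIndependent_iff]
  intro g hg i
  obtain ⟨b, u, hb, hu⟩ := exists_den (K := K) (Ω := Ω) g
  have h1 : ∑ j, aeval (xx K Ω) (u j) * c j = 0 := by
    have h2 : ∑ j, aeval (xx K Ω) (u j) * c j = aeval (xx K Ω) b * ∑ j, g j • c j := by
      rw [Finset.mul_sum]
      refine Finset.sum_congr rfl fun j _ => ?_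
      rw [← hu j, Algebra.smul_def, mul_assoc]
    rw [h2, hg, mul_zero]
  have h2 := poly_const δ hδ c hc hl (Finset.univ.sup fun j => (u j).natDegree) u
    (fun j => Finset.le_sup (f := fun j => (u j).natDegree) (Finset.mem_univ j)) h1
  have h3 := hu i
  rw [h2, Pi.zero_apply, map_zero, mul_eq_zero] at h3
  rcases h3 with h3 | h3
  · exact absurd (aeval_xx_eq_zero h3) hb
  · exact (map_eq_zero (algebraMap (RatFunc K) Ω)).1 h3

theorem finite_const [FiniteDimensional (RatFunc K) Ω] (δ : Derivation K Ω Ω)
    (hδ : δ (xx K Ω) = 1) : Module.Finite K (Cst δ) := by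
  have h1 : Module.rank K (Cst δ) ≤ (Module.finrank (RatFunc K) Ω : ℕ) := by
    apply rank_le
    intro s hs
    have h2 : LinearIndependent K (fun i : s => ((i : Cst δ) : Ω)) :=
      hs.map' (Cst δ).val.toLinearMap (LinearMap.ker_eq_bot.2 (Cst δ).val.injective)
    have h3 := indep_const δ hδ (fun i : s => ((i : Cst δ) : Ω)) (fun i => (i : Cst δ).2) h2
    have h4 := h3.fintype_card_le_finrank
    simpa using h4
  exact Module.rank_lt_aleph0_iff.1 (h1.trans_lt (Cardinal.natCast_lt_aleph0))

end

end Pool.Agent.K3h3.Fam2
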